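import Mathlib

set_option autoImplicit false

/-!
Question Q2 of MP_2fa0cb_nt for `f = z ^ d`, `g = z ^ e`, `c = ζ / z ^ k` with `ζ` of odd prime
order `l` not dividing `d e`: the rank-two set is semi-linear if and only if the `l`-adic valuations
of `d ^ m + k` or those of `e ^ n + k` are bounded.
-/

namespace Pool.Agent.Results.MP_2fa0cb_nt.MonomialCriterion

/-- The self-map of the projective line `ℂ ∪ {∞}` given by the rational function `h`, which is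
written in lowest terms as `h.num / h.denom`: a pole is sent to `∞`, and the value at `∞` is the
limit. -/
noncomputable def toMap (h : RatFunc ℂ) : OnePoint ℂ → OnePoint ℂ
  | OnePoint.some z =>
      if h.denom.eval z = 0 then OnePoint.infty else OnePoint.some (h.num.eval z / h.denom.eval z)
  | OnePoint.infty =>
      if h.denom.natDegree < h.num.natDegree then OnePoint.infty
      else OnePoint.some (h.num.coeff h.denom.natDegree / h.denom.leadingCoeff)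

/-- The degree of a rational function. -/
noncomputable def deg (h : RatFunc ℂ) : ℕ := max h.num.natDegree h.denom.natDegree

/-- The set of the pairs `(m, n)` of nonnegative integers such that `c x = f^m x = g^n x` for some
point `x` of the projective line (`f^m` is the iterate). -/
def recurrence2 (f g c : RatFunc ℂ) : Set (ℕ × ℕ) :=
  {p | ∃ x : OnePoint ℂ, toMap c x = (toMap f)^[p.1] x ∧ toMap c x = (toMap g)^[p.2] x}

/-! ### The maps -/

open Polynomial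

lemma num_pow (d : ℕ) : ((RatFunc.X : RatFunc ℂ) ^ d).num = X ^ d := by
  have h : (RatFunc.X : RatFunc ℂ) ^ d = algebraMap ℂ[X] (RatFunc ℂ) (X ^ d) := by
    rw [map_pow, RatFunc.algebraMap_X]
  rw [h, RatFunc.num_algebraMap]

lemma denom_pow (d : ℕ) : ((RatFunc.X : RatFunc ℂ) ^ d).denom = 1 := by
  have h : (RatFunc.X : RatFunc ℂ) ^ d = algebraMap ℂ[X] (RatFunc ℂ) (X ^ d) := by
    rw [map_pow, RatFunc.algebraMap_X]
  rw [h, RatFunc.denom_algebraMap]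

lemma map_pow_some (d : ℕ) (z : ℂ) :
    toMap (RatFunc.X ^ d) (OnePoint.some z) = OnePoint.some (z ^ d) := by
  simp [toMap, num_pow, denom_pow]

lemma map_pow_infty {d : ℕ} (hd : 1 ≤ d) :
    toMap (RatFunc.X ^ d) OnePoint.infty = OnePoint.infty := by
  simp only [toMap, num_pow, denom_pow, natDegree_one, natDegree_X_pow]
  rw [if_pos (by omega)]

lemma iter_some (d m : ℕ) (z : ℂ) :
    (toMap (RatFunc.X ^ d))^[m] (OnePoint.some z) = OnePoint.some (z ^ d ^ m) := by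
  induction m with
  | zero => simp
  | succ m ih => rw [Function.iterate_succ_apply', ih, map_pow_some, ← pow_mul, ← pow_succ]

lemma iter_infty {d : ℕ} (hd : 1 ≤ d) (m : ℕ) :
    (toMap (RatFunc.X ^ d))^[m] OnePoint.infty = OnePoint.infty := by
  induction m with
  | zero => rfl
  | succ m ih => rw [Function.iterate_succ_apply', ih, map_pow_infty hd]

lemma gcd_aux {ζ : ℂ} (hζ : ζ ≠ 0) (k : ℕ) : IsCoprime (C ζ : ℂ[X]) (X ^ k) := by
  refine ⟨C ζ⁻¹, 0, ?_⟩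
  rw [zero_mul, add_zero, ← C_mul, inv_mul_cancel₀ hζ, C_1]

lemma num_denom {ζ : ℂ} (hζ : ζ ≠ 0) (k : ℕ) :
    (RatFunc.C ζ / RatFunc.X ^ k : RatFunc ℂ).num = C ζ ∧
    (RatFunc.C ζ / RatFunc.X ^ k : RatFunc ℂ).denom = X ^ k := by
  have h : (RatFunc.C ζ / RatFunc.X ^ k : RatFunc ℂ) =
      algebraMap ℂ[X] (RatFunc ℂ) (C ζ) / algebraMap ℂ[X] (RatFunc ℂ) (X ^ k) := by
    rw [map_pow, RatFunc.algebraMap_X, RatFunc.algebraMap_C]
  have hg : gcd (C ζ : ℂ[X]) (X ^ k) = 1 := by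
    rw [← normalize_gcd]
    exact normalize_eq_one.2 ((gcd_isUnit_iff _ _).2 (gcd_aux hζ k))
  constructor
  · rw [h, RatFunc.num_div, hg]
    simp
  · rw [h, RatFunc.denom_div _ (by simp), hg]
    simp

lemma map_c_some {ζ : ℂ} (hζ : ζ ≠ 0) {k : ℕ} (hk : 1 ≤ k) (z : ℂ) :
    toMap (RatFunc.C ζ / RatFunc.X ^ k) (OnePoint.some z) =
      if z = 0 then OnePoint.infty else OnePoint.some (ζ / z ^ k) := by
  obtain ⟨h1, h2⟩ := num_denom hζ k
  simp only [toMap, h1, h2, eval_pow, eval_X, eval_C]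
  have : z ^ k = 0 ↔ z = 0 := pow_eq_zero_iff (by omega)
  simp only [this]

lemma map_c_infty {ζ : ℂ} (hζ : ζ ≠ 0) {k : ℕ} (hk : 1 ≤ k) :
    toMap (RatFunc.C ζ / RatFunc.X ^ k) OnePoint.infty = OnePoint.some 0 := by
  obtain ⟨h1, h2⟩ := num_denom hζ k
  simp only [toMap, h1, h2, natDegree_C, natDegree_X_pow]
  rw [if_neg (by omega), coeff_C, if_neg (by omega), zero_div]

/-- The recurrence set in terms of powers. -/
lemma mem_iff {ζ : ℂ} (hζ : ζ ≠ 0) {k d e : ℕ} (hk : 1 ≤ k) (hd : 1 ≤ d) (_he : 1 ≤ e) (m n : ℕ) :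
    (m, n) ∈ recurrence2 (RatFunc.X ^ d) (RatFunc.X ^ e) (RatFunc.C ζ / RatFunc.X ^ k) ↔
      ∃ z : ℂ, z ^ (d ^ m + k) = ζ ∧ z ^ (e ^ n + k) = ζ := by
  constructor
  · rintro ⟨x, h1, h2⟩
    dsimp only at h1 h2
    induction x using OnePoint.rec with
    | infty =>
      rw [map_c_infty hζ hk, iter_infty hd] at h1
      exact absurd h1 (OnePoint.coe_ne_infty _)
    | coe z =>
      change toMap _ (OnePoint.some z) = _ at h1
      change toMap _ (OnePoint.some z) = _ at h2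
      rw [map_c_some hζ hk] at h1 h2
      change _ = (toMap _)^[m] (OnePoint.some z) at h1
      change _ = (toMap _)^[n] (OnePoint.some z) at h2
      rw [iter_some] at h1 h2
      by_cases hz : z = 0
      · rw [if_pos hz] at h1
        exact absurd h1.symm (OnePoint.coe_ne_infty _)
      rw [if_neg hz] at h1 h2
      refine ⟨z, ?_, ?_⟩
      · have h1' : ζ / z ^ k = z ^ d ^ m := OnePoint.coe_injective h1
        rw [pow_add, ← h1']
        field_simp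
      · have h2' : ζ / z ^ k = z ^ e ^ n := OnePoint.coe_injective h2
        rw [pow_add, ← h2']
        field_simp
  · rintro ⟨z, h1, h2⟩
    have hz : z ≠ 0 := by
      rintro rfl
      rw [zero_pow (by omega)] at h1
      exact hζ h1.symm
    refine ⟨OnePoint.some z, ?_, ?_⟩
    · dsimp only
      rw [map_c_some hζ hk, iter_some, if_neg hz, ← h1, pow_add]
      field_simp
    · dsimp only
      rw [map_c_some hζ hk, iter_some, if_neg hz, ← h2, pow_add]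
      field_simp

/-! ### Powers modulo prime powers -/

lemma one_add_pow (x : ℤ) (t : ℕ) : x ^ 2 ∣ (1 + x) ^ t - (1 + t * x) := by
  induction t with
  | zero => simp
  | succ t ih =>
    obtain ⟨c, hc⟩ := ih
    refine ⟨c * (1 + x) + t, ?_⟩
    push_cast
    linear_combination (1 + x) * hc

/-- If `u ≡ 1` modulo `l ^ s` but not modulo `l ^ (s + 1)`, the powers of `u` represent all residue
classes `≡ 1` modulo `l ^ s`. -/
lemma represent {l : ℕ} (hl : l.Prime) (hl2 : l ≠ 2) {s : ℕ} (hs : 1 ≤ s) (u a : ℤ)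
    (h1 : (l : ℤ) ^ s ∣ u - 1) (h2 : ¬ (l : ℤ) ^ (s + 1) ∣ u - 1) (ha : (l : ℤ) ^ s ∣ a - 1)
    (j : ℕ) : ∃ n : ℕ, (l : ℤ) ^ (s + j) ∣ u ^ n - a := by
  have hlp : Prime (l : ℤ) := Nat.prime_iff_prime_int.1 hl
  have : Fact l.Prime := ⟨hl⟩
  have hlu : (l : ℤ) ∣ u - 1 := (dvd_pow_self _ (by omega)).trans h1
  have hlu' : ¬ (l : ℤ) ∣ u := by
    intro h
    have : (l : ℤ) ∣ 1 := by
      have := dvd_sub h hlu
      simpa using this
    exact hlp.not_dvd_one this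
  have hem : emultiplicity (l : ℤ) (u - 1) = s := by
    rw [emultiplicity_eq_coe]; exact ⟨h1, h2⟩
  induction j with
  | zero =>
    refine ⟨0, ?_⟩
    rw [pow_zero, add_zero, ← dvd_neg, neg_sub]
    exact ha
  | succ j ih =>
    obtain ⟨n, b, hb⟩ := ih
    have hw : emultiplicity (l : ℤ) (u ^ l ^ j - 1) = (s + j : ℕ) := by
      have := Int.emultiplicity_pow_sub_pow hl (hl.eq_two_or_odd'.resolve_left hl2)
        (x := u) (y := 1) hlu hlu' (l ^ j)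
      rw [one_pow, hem, Nat.Prime.emultiplicity_pow_self hl] at this
      rw [this]; push_cast; rfl
    rw [emultiplicity_eq_coe] at hw
    obtain ⟨⟨c, hc⟩, hc'⟩ := hw
    have hlc : ¬ (l : ℤ) ∣ c := by
      rintro ⟨c', rfl⟩
      apply hc'
      rw [hc, pow_succ]
      exact ⟨c', by ring⟩
    have hun : ¬ (l : ℤ) ∣ u ^ n * c := by
      rw [hlp.dvd_mul]
      rintro (h | h)
      · exact hlu' (hlp.dvd_of_dvd_pow h)
      · exact hlc h
    -- choose `t` with `b + u ^ n * c * t ≡ 0`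
    obtain ⟨t, ht⟩ : ∃ t : ℕ, (l : ℤ) ∣ b + u ^ n * c * t := by
      have hcop : IsCoprime (u ^ n * c) (l : ℤ) := by
        rw [isCoprime_comm]
        exact (Prime.coprime_iff_not_dvd hlp).2 hun
      obtain ⟨x, y, hxy⟩ := hcop
      refine ⟨((-b * x) % (l : ℤ)).toNat, ?_⟩
      have hl0 : (0 : ℤ) < l := by exact_mod_cast hl.pos
      rw [Int.toNat_of_nonneg (Int.emod_nonneg _ hl0.ne')]
      have e : (-b * x) % (l : ℤ) = -b * x - l * ((-b * x) / l) := by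
        have := Int.emod_add_mul_ediv (-b * x) (l : ℤ)
        linarith
      rw [e]
      refine ⟨b * y - u ^ n * c * ((-b * x) / l), ?_⟩
      linear_combination -b * hxy
    refine ⟨n + l ^ j * t, ?_⟩
    obtain ⟨q, hq⟩ := one_add_pow ((l : ℤ) ^ (s + j) * c) t
    have hwt : (u ^ l ^ j) ^ t = 1 + t * ((l : ℤ) ^ (s + j) * c) + ((l : ℤ) ^ (s + j) * c) ^ 2 * q := by
      have : u ^ l ^ j = 1 + (l : ℤ) ^ (s + j) * c := by linarith
      rw [this]; linarith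
    have e1 : u ^ (n + l ^ j * t) - a = (l : ℤ) ^ (s + j) * (b + u ^ n * c * t) +
        u ^ n * ((l : ℤ) ^ (s + j) * c) ^ 2 * q := by
      rw [pow_add, pow_mul, hwt]
      linear_combination hb
    rw [e1, ← add_assoc, pow_succ]
    apply dvd_add
    · exact mul_dvd_mul_left _ ht
    · have : (l : ℤ) ^ (s + j) * l ∣ ((l : ℤ) ^ (s + j)) ^ 2 := by
        rw [pow_two]
        exact mul_dvd_mul_left _ (dvd_pow_self _ (by omega))
      exact this.trans ⟨u ^ n * c ^ 2 * q, by ring⟩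

/-! ### The roots of unity -/

/-- Necessary condition. -/
lemma necessary {l : ℕ} (hl : l.Prime) {ζ : ℂ} (h1 : ζ ≠ 1) (h2 : ζ ^ l = 1) {A B r : ℕ}
    (hr : l ^ r ∣ A) (hr' : ¬ l ^ (r + 1) ∣ A) {z : ℂ} (hA : z ^ A = ζ) (hB : z ^ B = ζ) :
    (l : ℤ) ^ (r + 1) ∣ (A : ℤ) - B := by
  have : Fact l.Prime := ⟨hl⟩
  obtain ⟨A', rfl⟩ := hr
  set y := z ^ A' with hy
  have hy1 : y ^ l ^ r = ζ := by rw [hy, ← pow_mul, mul_comm, hA]
  have hord : orderOf y = l ^ (r + 1) := by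
    apply orderOf_eq_prime_pow
    · rw [hy1]; exact h1
    · rw [pow_succ, pow_mul, hy1, h2]
  have e1 : y ^ (l ^ r * A') = y ^ B := by
    have e2 : y ^ (l ^ r * A') = (z ^ (l ^ r * A')) ^ A' := by
      rw [hy, ← pow_mul, ← pow_mul]; congr 1; ring
    have e3 : y ^ B = (z ^ B) ^ A' := by
      rw [hy, ← pow_mul, ← pow_mul]; congr 1; ring
    rw [e2, e3, hA, hB]
  have hy0 : y ≠ 0 := by
    intro h0
    rw [h0, orderOf_zero] at hord
    exact pow_ne_zero _ hl.ne_zero hord.symm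
  have hu : orderOf (Units.mk0 y hy0) = l ^ (r + 1) := by
    rw [← hord, ← orderOf_units, Units.val_mk0]
  have e1' : (Units.mk0 y hy0) ^ (l ^ r * A') = (Units.mk0 y hy0) ^ B := by
    ext
    simpa using e1
  have h3 := (pow_eq_pow_iff_modEq.1 e1').dvd
  rw [hu] at h3
  rw [← dvd_neg, neg_sub]
  exact_mod_cast h3

/-- Sufficient condition. -/
lemma sufficient {l : ℕ} (hl : l.Prime) {A B r : ℕ} (hr : l ^ r ∣ A) (hr' : ¬ l ^ (r + 1) ∣ A)
    (h : A ≡ B [MOD l ^ (r + 1)]) :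
    ∃ z : ℂ, z ^ A = Complex.exp (2 * Real.pi * Complex.I / l) ∧
      z ^ B = Complex.exp (2 * Real.pi * Complex.I / l) := by
  set z0 := Complex.exp (2 * Real.pi * Complex.I / (l ^ (r + 1) : ℕ)) with hz0
  have hprim : IsPrimitiveRoot z0 (l ^ (r + 1)) :=
    Complex.isPrimitiveRoot_exp _ (pow_ne_zero _ hl.ne_zero)
  have hpow : z0 ^ l ^ r = Complex.exp (2 * Real.pi * Complex.I / l) := by
    rw [hz0, ← Complex.exp_nat_mul]
    congr 1
    have : (l : ℂ) ≠ 0 := by exact_mod_cast hl.ne_zero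
    push_cast
    rw [pow_succ]
    field_simp
  obtain ⟨A', rfl⟩ := hr
  have hcop : Nat.Coprime A' l := by
    rw [Nat.coprime_comm, hl.coprime_iff_not_dvd]
    rintro ⟨c, rfl⟩
    exact hr' ⟨c, by ring⟩
  obtain ⟨w, hw⟩ : ∃ w : ℕ, A' * w ≡ 1 [MOD l] := by
    obtain ⟨w, hw⟩ := Nat.exists_mul_mod_eq_one_of_coprime hcop hl.one_lt
    refine ⟨w, ?_⟩
    rw [Nat.ModEq, hw.2, Nat.mod_eq_of_lt hl.one_lt]
  have hζ : IsPrimitiveRoot (Complex.exp (2 * Real.pi * Complex.I / l)) l :=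
    Complex.isPrimitiveRoot_exp _ hl.ne_zero
  have hA : (z0 ^ w) ^ (l ^ r * A') = Complex.exp (2 * Real.pi * Complex.I / l) := by
    have e : (z0 ^ w) ^ (l ^ r * A') = (z0 ^ l ^ r) ^ (A' * w) := by
      rw [← pow_mul, ← pow_mul]; congr 1; ring
    rw [e, hpow]
    rw [pow_eq_pow_of_modEq hw hζ.pow_eq_one, pow_one]
  refine ⟨z0 ^ w, hA, ?_⟩
  rw [← hA, ← pow_mul, ← pow_mul]
  exact pow_eq_pow_of_modEq (Nat.ModEq.mul_left w h).symm hprim.pow_eq_one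

/-! ### Semi-linear sets -/

/-- In a semi-linear set of pairs, there is a bound `C` such that each point `(m, n)` of the set with
`C + C m < n` can be translated by some `(0, q)`, `0 < q ≤ C`, inside the set. -/
lemma semilinear_shift {S : Set (ℕ × ℕ)} (hS : IsSemilinearSet S) :
    ∃ C : ℕ, ∀ m n : ℕ, (m, n) ∈ S → C + C * m < n → ∃ q : ℕ, 0 < q ∧ q ≤ C ∧ (m, n + q) ∈ S := by
  obtain ⟨F, hF, hlin, rfl⟩ := hS
  -- one linear set
  have key : ∀ t ∈ F, ∃ C : ℕ, ∀ C' : ℕ, C ≤ C' → ∀ m n : ℕ, (m, n) ∈ t → C' + C' * m < n →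
      ∃ q : ℕ, 0 < q ∧ q ≤ C' ∧ (m, n + q) ∈ t := by
    intro t ht
    obtain ⟨a, P, hP, rfl⟩ := hlin t ht
    obtain ⟨C1, hC1⟩ : ∃ C1 : ℕ, ∀ p ∈ P, p.2 ≤ C1 := by
      obtain ⟨C1, hC1⟩ := (hP.image Prod.snd).bddAbove
      exact ⟨C1, fun p hp => hC1 (Set.mem_image_of_mem _ hp)⟩
    refine ⟨C1 + a.2, fun C' hC' m n hmn hlt => ?_⟩
    obtain ⟨v, hv, hv'⟩ := hmn
    by_cases hq : ∃ q : ℕ, 0 < q ∧ ((0, q) : ℕ × ℕ) ∈ P
    · obtain ⟨q, hq0, hqP⟩ := hq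
      refine ⟨q, hq0, (hC1 _ hqP).trans (by omega), ?_⟩
      refine ⟨v + (0, q), add_mem hv (AddSubmonoid.subset_closure hqP), ?_⟩
      have hv'' : a + v = (m, n) := hv'
      change a + (v + (0, q)) = (m, n + q)
      rw [← add_assoc, hv'']
      simp
    · exfalso
      push Not at hq
      have hb : ∀ u ∈ AddSubmonoid.closure P, u.2 ≤ C1 * u.1 := by
        intro u hu
        induction hu using AddSubmonoid.closure_induction with
        | mem x hx =>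
          rcases Nat.eq_zero_or_pos x.1 with h0 | h0
          · rcases Nat.eq_zero_or_pos x.2 with h2 | h2
            · rw [h2]; exact Nat.zero_le _
            · exact absurd (show ((0, x.2) : ℕ × ℕ) ∈ P by rw [← h0]; exact hx) (hq _ h2)
          · exact (hC1 x hx).trans (Nat.le_mul_of_pos_right _ h0)
        | zero => simp
        | add x y _ _ hx hy =>
          rw [Prod.snd_add, Prod.fst_add, mul_add]
          exact add_le_add hx hy
      have h1 := hb v hv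
      have hv'' : a + v = (m, n) := hv'
      have e1 : a.1 + v.1 = m := by rw [← Prod.fst_add, hv'']
      have e2 : a.2 + v.2 = n := by rw [← Prod.snd_add, hv'']
      have h2 : C1 * v.1 ≤ C' * m := Nat.mul_le_mul (by omega) (by omega)
      omega
  choose! C hC using key
  refine ⟨hF.toFinset.sup C, fun m n hmn hlt => ?_⟩
  obtain ⟨t, ht, hmt⟩ := hmn
  obtain ⟨q, hq0, hqC, hq⟩ := hC t ht _ (Finset.le_sup (f := C) (hF.mem_toFinset.2 ht)) m n hmt hlt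
  exact ⟨q, hq0, hqC, t, ht, hq⟩

/-! ### The main result -/

/-- The `l`-adic data of the base `e`. -/
lemma base_data {l e : ℕ} (hl : l.Prime) (hl2 : l ≠ 2) (he : 2 ≤ e) (hle : ¬ l ∣ e) :
    ∃ s : ℕ, 1 ≤ s ∧ (l : ℤ) ^ s ∣ (e : ℤ) ^ (l - 1) - 1 ∧
      ¬ (l : ℤ) ^ (s + 1) ∣ (e : ℤ) ^ (l - 1) - 1 := by
  have hne : (e : ℤ) ^ (l - 1) - 1 ≠ 0 := by
    have h3 : 3 ≤ l := by
      have := hl.two_le
      omega
    have : (1 : ℤ) < (e : ℤ) ^ (l - 1) := one_lt_pow₀ (by exact_mod_cast he) (by omega)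
    omega
  have hfin : FiniteMultiplicity (l : ℤ) ((e : ℤ) ^ (l - 1) - 1) := by
    rw [Int.finiteMultiplicity_iff]
    exact ⟨by simpa using hl.ne_one, hne⟩
  refine ⟨multiplicity (l : ℤ) ((e : ℤ) ^ (l - 1) - 1), ?_, pow_multiplicity_dvd _ _,
    hfin.not_pow_dvd_of_multiplicity_lt (Nat.lt_succ_self _)⟩
  apply hfin.le_multiplicity_of_pow_dvd
  rw [pow_one]
  have := Int.ModEq.pow_card_sub_one_eq_one hl (n := (e : ℤ)) (by
    rw [isCoprime_comm]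
    exact (Prime.coprime_iff_not_dvd (Nat.prime_iff_prime_int.1 hl)).2 (by exact_mod_cast hle))
  exact this.symm.dvd


lemma sufficient' {l : ℕ} (hl : l.Prime) {ζ : ℂ} (hζl : ζ ^ l = 1) {A B r : ℕ} (hr : l ^ r ∣ A)
    (hr' : ¬ l ^ (r + 1) ∣ A) (h : A ≡ B [MOD l ^ (r + 1)]) : ∃ z : ℂ, z ^ A = ζ ∧ z ^ B = ζ := by
  have : NeZero l := ⟨hl.ne_zero⟩
  have hprim : IsPrimitiveRoot (Complex.exp (2 * Real.pi * Complex.I / l)) l :=
    Complex.isPrimitiveRoot_exp _ hl.ne_zero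
  obtain ⟨i, -, hi⟩ := hprim.eq_pow_of_pow_eq_one hζl
  obtain ⟨z, h1, h2⟩ := sufficient hl hr hr' h
  refine ⟨z ^ i, ?_, ?_⟩
  · rw [← pow_mul, mul_comm, pow_mul, h1, hi]
  · rw [← pow_mul, mul_comm, pow_mul, h2, hi]

/-- the exact power of `l` dividing a positive number -/
lemma exact_power {l A : ℕ} (hl : l.Prime) (hA : A ≠ 0) (t : ℕ) (ht : l ^ t ∣ A) :
    ∃ r : ℕ, l ^ r ∣ A ∧ ¬ l ^ (r + 1) ∣ A ∧ t ≤ r := by
  have hfin : FiniteMultiplicity l A := Nat.finiteMultiplicity_iff.2 ⟨hl.ne_one, by omega⟩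
  exact ⟨multiplicity l A, pow_multiplicity_dvd _ _,
    hfin.not_pow_dvd_of_multiplicity_lt (Nat.lt_succ_self _), hfin.le_multiplicity_of_pow_dvd ht⟩

lemma mem_iff' {l : ℕ} (hl : l.Prime) {ζ : ℂ} (hζ1 : ζ ≠ 1) (hζl : ζ ^ l = 1) {k d e : ℕ}
    (hk : 1 ≤ k) (hd : 1 ≤ d) (he : 1 ≤ e) (m n : ℕ) :
    (m, n) ∈ recurrence2 (RatFunc.X ^ d) (RatFunc.X ^ e) (RatFunc.C ζ / RatFunc.X ^ k) ↔
      ∃ r : ℕ, l ^ r ∣ d ^ m + k ∧ ¬ l ^ (r + 1) ∣ d ^ m + k ∧
        d ^ m + k ≡ e ^ n + k [MOD l ^ (r + 1)] := by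
  have hζ0 : ζ ≠ 0 := by
    rintro rfl
    rw [zero_pow hl.ne_zero] at hζl
    exact zero_ne_one hζl
  rw [mem_iff hζ0 hk hd he]
  constructor
  · rintro ⟨z, h1, h2⟩
    obtain ⟨r, hr1, hr2, -⟩ := exact_power hl (A := d ^ m + k) (by omega) 0 (by simp)
    refine ⟨r, hr1, hr2, ?_⟩
    have h := necessary hl hζ1 hζl hr1 hr2 h1 h2
    rw [Nat.modEq_iff_dvd, ← dvd_neg, neg_sub]
    exact_mod_cast h
  · rintro ⟨r, hr1, hr2, h⟩
    exact sufficient' hl hζl hr1 hr2 h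

/-- if both valuations are unbounded the set is not semi-linear -/
lemma not_semi {l d e k : ℕ} (hl : l.Prime) (hl2 : l ≠ 2) (hd : 2 ≤ d) (he : 2 ≤ e)
    (hle : ¬ l ∣ e) (hk1 : 1 ≤ k) {ζ : ℂ} (hζ1 : ζ ≠ 1) (hζl : ζ ^ l = 1)
    (hyp : ∀ r : ℕ, (∃ m : ℕ, l ^ r ∣ d ^ m + k) ∧ ∃ n : ℕ, l ^ r ∣ e ^ n + k) :
    ¬ IsSemilinearSet
        (recurrence2 (RatFunc.X ^ d) (RatFunc.X ^ e) (RatFunc.C ζ / RatFunc.X ^ k)) := by
  obtain ⟨se, hse, he1, he2⟩ := base_data hl hl2 he hle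
  intro hS
  obtain ⟨C, hC⟩ := semilinear_shift hS
  obtain ⟨j, hj⟩ := pow_unbounded_of_one_lt (e ^ C) hl.one_lt
  obtain ⟨m, hAdvd⟩ := (hyp (se + j)).1
  set A := d ^ m + k with hA
  have hA0 : A ≠ 0 := by omega
  obtain ⟨r, hr1, hr2, hrj⟩ := exact_power hl hA0 _ hAdvd
  have hlz : ∀ a b : ℕ, a ≤ b → (l : ℤ) ^ a ∣ (l : ℤ) ^ b := fun a b h => pow_dvd_pow _ h
  have hAz : (l : ℤ) ^ r ∣ (A : ℤ) := by exact_mod_cast hr1
  have hAe : (A : ℤ) = (d : ℤ) ^ m + k := by rw [hA]; push_cast; rfl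
  obtain ⟨n1, hn1⟩ := (hyp (r + 1)).2
  have hn1z : (l : ℤ) ^ (r + 1) ∣ (e : ℤ) ^ n1 + k := by exact_mod_cast hn1
  have hcop : Nat.Coprime e (l ^ (r + 1)) :=
    Nat.Coprime.pow_right _ ((Nat.coprime_comm.1 ((hl.coprime_iff_not_dvd).2 hle)))
  set T := Nat.totient (l ^ (r + 1)) with hT
  have hT1 : 1 ≤ T := Nat.totient_pos.2 (pow_pos hl.pos _)
  have hper : ∀ x : ℕ, (l : ℤ) ^ (r + 1) ∣ (e : ℤ) ^ (T * x) - 1 := by
    intro x
    have h2 : e ^ (T * x) ≡ 1 [MOD l ^ (r + 1)] := by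
      rw [pow_mul]
      have := (Nat.ModEq.pow_totient hcop).pow x
      rwa [one_pow] at this
    have := h2.symm.dvd
    exact_mod_cast this
  set a : ℤ := (d : ℤ) ^ m * (e : ℤ) ^ (n1 * (T - 1)) with ha
  have hTn : n1 * (T - 1) + n1 = T * n1 := by
    obtain ⟨T', hT'⟩ : ∃ T', T = T' + 1 := ⟨T - 1, by omega⟩
    rw [hT', Nat.add_sub_cancel]; ring
  have heT : (e : ℤ) ^ (n1 * (T - 1)) * (e : ℤ) ^ n1 = (e : ℤ) ^ (T * n1) := by
    rw [← pow_add, hTn]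
  obtain ⟨n', hn'⟩ := represent hl hl2 hse ((e : ℤ) ^ (l - 1)) a he1 he2 (by
    have e1 : a - 1 = ((A : ℤ) - ((e : ℤ) ^ n1 + k)) * (e : ℤ) ^ (n1 * (T - 1))
        + ((e : ℤ) ^ (T * n1) - 1) := by
      rw [ha, hAe, ← heT]; ring
    rw [e1]
    refine dvd_add (Dvd.dvd.mul_right (dvd_sub ((hlz _ _ (by omega)).trans hAz)
      ((hlz _ _ (by omega)).trans hn1z)) _) ((hlz _ _ (by omega)).trans (hper n1))) (r + 1)
  set n := (l - 1) * n' + n1 + T * (C + C * m + 1) with hn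
  have hnC : C + C * m < n := by
    have : C + C * m + 1 ≤ T * (C + C * m + 1) := Nat.le_mul_of_pos_left _ hT1
    omega
  have hen : (l : ℤ) ^ (r + 1) ∣ (e : ℤ) ^ n - (d : ℤ) ^ m := by
    have h3 : (l : ℤ) ^ (r + 1) ∣ ((e : ℤ) ^ (l - 1)) ^ n' - a :=
      (hlz _ _ (by omega)).trans hn'
    have e2 : (e : ℤ) ^ n - (d : ℤ) ^ m =
        ((e : ℤ) ^ (l - 1)) ^ n' * (e : ℤ) ^ n1 * ((e : ℤ) ^ (T * (C + C * m + 1)) - 1) +
          (((e : ℤ) ^ (l - 1)) ^ n' - a) * (e : ℤ) ^ n1 +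
          (d : ℤ) ^ m * ((e : ℤ) ^ (T * n1) - 1) := by
      rw [hn, pow_add, pow_add, pow_mul, ha, ← heT]; ring
    rw [e2]
    exact dvd_add (dvd_add ((hper _).mul_left _) (h3.mul_right _)) ((hper n1).mul_left _)
  have hmem : (m, n) ∈ recurrence2 (RatFunc.X ^ d) (RatFunc.X ^ e) (RatFunc.C ζ / RatFunc.X ^ k) := by
    rw [mem_iff' hl hζ1 hζl hk1 (by omega) (by omega)]
    refine ⟨r, hr1, hr2, ?_⟩
    rw [Nat.modEq_iff_dvd]
    push_cast
    have : (e : ℤ) ^ n + k - ((d : ℤ) ^ m + k) = (e : ℤ) ^ n - (d : ℤ) ^ m := by ring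
    rw [this]
    exact hen
  obtain ⟨q, hq0, hqC, hq⟩ := hC m n hmem hnC
  have hζ0 : ζ ≠ 0 := by
    rintro rfl
    rw [zero_pow hl.ne_zero] at hζl
    exact zero_ne_one hζl
  rw [mem_iff hζ0 hk1 (by omega) (by omega)] at hq
  obtain ⟨z, hz1, hz2⟩ := hq
  have h4 := necessary hl hζ1 hζl hr1 hr2 hz1 hz2
  have h5 : (l : ℤ) ^ (r + 1) ∣ (e : ℤ) ^ n * ((e : ℤ) ^ q - 1) := by
    have h6 := dvd_add h4 hen
    rw [hAe] at h6
    push_cast at h6
    have e3 : (e : ℤ) ^ n * ((e : ℤ) ^ q - 1) =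
        -(((d : ℤ) ^ m + k - ((e : ℤ) ^ (n + q) + k)) + ((e : ℤ) ^ n - (d : ℤ) ^ m)) := by
      rw [pow_add]; ring
    rw [e3, dvd_neg]
    exact h6
  have h7 : (l : ℤ) ^ (r + 1) ∣ (e : ℤ) ^ q - 1 := by
    apply IsCoprime.dvd_of_dvd_mul_left _ h5
    rw [isCoprime_comm]
    have := Nat.isCoprime_iff_coprime.2 hcop
    push_cast at this
    exact this.pow_left
  have h8 : (0 : ℤ) < (e : ℤ) ^ q - 1 := by
    have : (1 : ℤ) < (e : ℤ) ^ q := one_lt_pow₀ (by exact_mod_cast he) (by omega)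
    omega
  have h9 := Int.le_of_dvd h8 h7
  have h10 : (e : ℤ) ^ q ≤ (e : ℤ) ^ C := pow_le_pow_right₀ (by omega) hqC
  have h11 : (e : ℤ) ^ C < (l : ℤ) ^ j := by exact_mod_cast hj
  have h12 : (l : ℤ) ^ j ≤ (l : ℤ) ^ (r + 1) :=
    pow_le_pow_right₀ (by exact_mod_cast hl.one_le) (by omega)
  omega

open scoped Pointwise in
/-- doubly periodic sets are semi-linear -/
lemma periodic_semi (S : Set (ℕ × ℕ)) (T : ℕ) (hT : 1 ≤ T)
    (h : ∀ m n : ℕ, (m, n) ∈ S ↔ (m % T, n % T) ∈ S) : IsSemilinearSet S := by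
  set P : Set (ℕ × ℕ) := {(T, 0), (0, T)} with hP
  have hcl : ∀ v ∈ AddSubmonoid.closure P, T ∣ v.1 ∧ T ∣ v.2 := by
    intro v hv
    induction hv using AddSubmonoid.closure_induction with
    | mem x hx =>
      rcases hx with rfl | rfl <;> simp
    | zero => simp
    | add x y _ _ hx hy => exact ⟨dvd_add hx.1 hy.1, dvd_add hx.2 hy.2⟩
  refine ⟨(fun a => a +ᵥ (AddSubmonoid.closure P : Set (ℕ × ℕ))) ''
    (S ∩ (Set.Iio T ×ˢ Set.Iio T)), ?_, ?_, ?_⟩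
  · exact (((Set.finite_Iio T).prod (Set.finite_Iio T)).subset Set.inter_subset_right).image _
  · rintro t ⟨a, -, rfl⟩
    exact ⟨a, P, by rw [hP]; exact Set.toFinite _, rfl⟩
  · ext ⟨m, n⟩
    rw [Set.sUnion_image]
    simp only [Set.mem_iUnion]
    constructor
    · intro hmn
      refine ⟨(m % T, n % T), ⟨(h m n).1 hmn, Nat.mod_lt _ hT, Nat.mod_lt _ hT⟩, ?_⟩
      refine ⟨(T * (m / T), T * (n / T)), ?_, ?_⟩
      · have h1 : ((T * (m / T), T * (n / T)) : ℕ × ℕ)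
            = (m / T) • ((T, 0) : ℕ × ℕ) + (n / T) • ((0, T) : ℕ × ℕ) := by
          ext <;> simp [mul_comm]
        rw [h1]
        exact add_mem (AddSubmonoid.nsmul_mem _ (AddSubmonoid.subset_closure (by simp [hP])) _)
          (AddSubmonoid.nsmul_mem _ (AddSubmonoid.subset_closure (by simp [hP])) _)
      · change (m % T, n % T) + (T * (m / T), T * (n / T)) = (m, n)
        ext
        · simpa using Nat.mod_add_div m T
        · simpa using Nat.mod_add_div n T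
    · rintro ⟨⟨a, b⟩, ⟨hab, -⟩, v, hv, hv'⟩
      have hv'' : ((a, b) : ℕ × ℕ) + v = (m, n) := hv'
      obtain ⟨⟨c1, h1⟩, ⟨c2, h2⟩⟩ := hcl v hv
      have e1 : a + v.1 = m := congrArg Prod.fst hv''
      have e2 : b + v.2 = n := congrArg Prod.snd hv''
      rw [h, ← e1, ← e2, h1, h2, Nat.add_mul_mod_self_left, Nat.add_mul_mod_self_left]
      exact (h a b).1 hab

/-- if one of the valuations is bounded the set is semi-linear -/
lemma semi {l d e k : ℕ} (hl : l.Prime) (hd : 2 ≤ d) (he : 2 ≤ e)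
    (hld : ¬ l ∣ d) (hle : ¬ l ∣ e) (hk1 : 1 ≤ k) {ζ : ℂ} (hζ1 : ζ ≠ 1) (hζl : ζ ^ l = 1)
    (R : ℕ) (hR : (∀ m : ℕ, ¬ l ^ R ∣ d ^ m + k) ∨ ∀ n : ℕ, ¬ l ^ R ∣ e ^ n + k) :
    IsSemilinearSet
        (recurrence2 (RatFunc.X ^ d) (RatFunc.X ^ e) (RatFunc.C ζ / RatFunc.X ^ k)) := by
  have hT1 : 1 ≤ Nat.totient (l ^ R) := Nat.totient_pos.2 (pow_pos hl.pos _)
  apply periodic_semi _ (Nat.totient (l ^ R)) hT1
  have hper : ∀ c : ℕ, ¬ l ∣ c → ∀ m : ℕ, c ^ m ≡ c ^ (m % Nat.totient (l ^ R)) [MOD l ^ R] := by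
    intro c hc m
    have hcop : Nat.Coprime c (l ^ R) :=
      Nat.Coprime.pow_right _ ((Nat.coprime_comm.1 ((hl.coprime_iff_not_dvd).2 hc)))
    have h1 := ((Nat.ModEq.pow_totient hcop).pow (m / Nat.totient (l ^ R))).mul_left
      (c ^ (m % Nat.totient (l ^ R)))
    rw [one_pow, mul_one, ← pow_mul, ← pow_add, Nat.mod_add_div] at h1
    exact h1
  -- bounded form of the membership
  have hb : ∀ m n : ℕ, (m, n) ∈ recurrence2 (RatFunc.X ^ d) (RatFunc.X ^ e)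
      (RatFunc.C ζ / RatFunc.X ^ k) ↔ ∃ r < R, l ^ r ∣ d ^ m + k ∧ ¬ l ^ (r + 1) ∣ d ^ m + k ∧
        d ^ m + k ≡ e ^ n + k [MOD l ^ (r + 1)] := by
    intro m n
    rw [mem_iff' hl hζ1 hζl hk1 (by omega) (by omega)]
    constructor
    · rintro ⟨r, h1, h2, h3⟩
      refine ⟨r, ?_, h1, h2, h3⟩
      by_contra hr
      rw [not_lt] at hr
      rcases hR with hR | hR
      · exact hR m ((pow_dvd_pow _ hr).trans h1)
      · apply hR n
        have h4 := h3.of_dvd (pow_dvd_pow l (Nat.le_succ r))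
        exact (pow_dvd_pow _ hr).trans ((h4.dvd_iff dvd_rfl).1 h1)
    · rintro ⟨r, -, h⟩
      exact ⟨r, h⟩
  have hinv : ∀ x x' y y' : ℕ, x ≡ x' [MOD l ^ R] → y ≡ y' [MOD l ^ R] →
      (∃ r < R, l ^ r ∣ x ∧ ¬ l ^ (r + 1) ∣ x ∧ x ≡ y [MOD l ^ (r + 1)]) →
      ∃ r < R, l ^ r ∣ x' ∧ ¬ l ^ (r + 1) ∣ x' ∧ x' ≡ y' [MOD l ^ (r + 1)] := by
    rintro x x' y y' hx hy ⟨r, hr, h1, h2, h3⟩
    have d1 : l ^ r ∣ l ^ R := pow_dvd_pow _ hr.le
    have d2 : l ^ (r + 1) ∣ l ^ R := pow_dvd_pow _ hr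
    refine ⟨r, hr, (hx.dvd_iff d1).1 h1, fun h => h2 ((hx.dvd_iff d2).2 h), ?_⟩
    exact ((hx.of_dvd d2).symm.trans h3).trans (hy.of_dvd d2)
  intro m n
  rw [hb, hb]
  have hx := (hper d hld m).add_right k
  have hy := (hper e hle n).add_right k
  exact ⟨hinv _ _ _ _ hx hy, hinv _ _ _ _ hx.symm hy.symm⟩

/-- The criterion for given `d`, `e`. -/
theorem criterion (d e : ℕ) (hd : 2 ≤ d) (he : 2 ≤ e) :
    deg (RatFunc.X ^ d) = d ∧ deg (RatFunc.X ^ e) = e ∧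
    ∀ l : ℕ, l.Prime → l ≠ 2 → ¬ l ∣ d → ¬ l ∣ e →
      (∀ k : ℕ, 1 ≤ k → ∀ ζ : ℂ, ζ ≠ 1 → ζ ^ l = 1 →
        (¬ IsSemilinearSet
            (recurrence2 (RatFunc.X ^ d) (RatFunc.X ^ e) (RatFunc.C ζ / RatFunc.X ^ k)) ↔
          ∀ r : ℕ, (∃ m : ℕ, l ^ r ∣ d ^ m + k) ∧ ∃ n : ℕ, l ^ r ∣ e ^ n + k)) ∧
      ∀ K : ℕ, ∃ k : ℕ, K ≤ k ∧ 1 ≤ k ∧ ∀ ζ : ℂ, ζ ≠ 1 → ζ ^ l = 1 →
        ¬ IsSemilinearSet
            (recurrence2 (RatFunc.X ^ d) (RatFunc.X ^ e) (RatFunc.C ζ / RatFunc.X ^ k)) := by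
  refine ⟨by simp [deg, num_pow, denom_pow], by simp [deg, num_pow, denom_pow], ?_⟩
  intro l hl hl2 hld hle
  constructor
  · intro k hk1 ζ hζ1 hζl
    constructor
    · intro h r
      by_contra hr
      apply h
      refine semi hl hd he hld hle hk1 hζ1 hζl r ?_
      by_contra h2
      push Not at h2
      exact hr h2
    · exact not_semi hl hl2 hd he hle hk1 hζ1 hζl
  · intro K
    obtain ⟨sd, hsd, hd1, hd2⟩ := base_data hl hl2 hd hld
    obtain ⟨se, hse, he1, he2⟩ := base_data hl hl2 he hle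
    set s := max (max sd se) (K + 1) with hs
    have hls : 2 ≤ l ^ s := hl.two_le.trans (Nat.le_self_pow (by omega) _)
    have hsl : s < l ^ s := Nat.lt_pow_self hl.one_lt
    have hkz : ((l ^ s - 1 : ℕ) : ℤ) = (l : ℤ) ^ s - 1 := by
      rw [Nat.cast_sub (by omega)]; push_cast; rfl
    refine ⟨l ^ s - 1, by omega, by omega, fun ζ hζ1 hζl => ?_⟩
    apply not_semi hl hl2 hd he hle (by omega) hζ1 hζl
    intro r
    constructor
    · obtain ⟨m', hm'⟩ := represent hl hl2 hsd ((d : ℤ) ^ (l - 1)) (-((l ^ s - 1 : ℕ) : ℤ)) hd1 hd2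
        (by
          rw [hkz]
          have : (-((l : ℤ) ^ s - 1) - 1) = -(l : ℤ) ^ s := by ring
          rw [this, dvd_neg]
          exact pow_dvd_pow _ (by omega)) r
      refine ⟨(l - 1) * m', (pow_dvd_pow l (Nat.le_add_left r sd)).trans ?_⟩
      have : (l : ℤ) ^ (sd + r) ∣ ((d ^ ((l - 1) * m') + (l ^ s - 1) : ℕ) : ℤ) := by
        rw [Nat.cast_add, Nat.cast_pow, pow_mul, ← sub_neg_eq_add]
        exact hm'
      exact_mod_cast this
    · obtain ⟨m', hm'⟩ := represent hl hl2 hse ((e : ℤ) ^ (l - 1)) (-((l ^ s - 1 : ℕ) : ℤ)) he1 he2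
        (by
          rw [hkz]
          have : (-((l : ℤ) ^ s - 1) - 1) = -(l : ℤ) ^ s := by ring
          rw [this, dvd_neg]
          exact pow_dvd_pow _ (by omega)) r
      refine ⟨(l - 1) * m', (pow_dvd_pow l (Nat.le_add_left r se)).trans ?_⟩
      have : (l : ℤ) ^ (se + r) ∣ ((e ^ ((l - 1) * m') + (l ^ s - 1) : ℕ) : ℤ) := by
        rw [Nat.cast_add, Nat.cast_pow, pow_mul, ← sub_neg_eq_add]
        exact hm'
      exact_mod_cast this

/-- **Theorem.** Q2 has a negative answer. Moreover let `d, e ≥ 2`, let `l` be an odd prime which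
divides neither `d` nor `e`, and let `ζ ≠ 1` be an `l`-th root of unity. For `k ≥ 1` the rank-two
recurrence set of `z ^ d`, `z ^ e`, `ζ / z ^ k` fails to be semi-linear if and only if `d ^ m + k`
and `e ^ n + k` are divisible by arbitrarily large powers of `l`; and this happens for arbitrarily
large `k`. -/
theorem result :
    (¬ ∀ f g c : RatFunc ℂ, 1 ≤ deg f → 1 ≤ deg g → (2 ≤ deg f ∨ 2 ≤ deg g) →
      IsSemilinearSet (recurrence2 f g c)) ∧
    ∀ d e : ℕ, 2 ≤ d → 2 ≤ e → deg (RatFunc.X ^ d) = d ∧ deg (RatFunc.X ^ e) = e ∧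
    ∀ l : ℕ, l.Prime → l ≠ 2 → ¬ l ∣ d → ¬ l ∣ e →
      (∀ k : ℕ, 1 ≤ k → ∀ ζ : ℂ, ζ ≠ 1 → ζ ^ l = 1 →
        (¬ IsSemilinearSet
            (recurrence2 (RatFunc.X ^ d) (RatFunc.X ^ e) (RatFunc.C ζ / RatFunc.X ^ k)) ↔
          ∀ r : ℕ, (∃ m : ℕ, l ^ r ∣ d ^ m + k) ∧ ∃ n : ℕ, l ^ r ∣ e ^ n + k)) ∧
      ∀ K : ℕ, ∃ k : ℕ, K ≤ k ∧ 1 ≤ k ∧ ∀ ζ : ℂ, ζ ≠ 1 → ζ ^ l = 1 →
        ¬ IsSemilinearSet
            (recurrence2 (RatFunc.X ^ d) (RatFunc.X ^ e) (RatFunc.C ζ / RatFunc.X ^ k)) := by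
  refine ⟨fun h => ?_, fun d e hd he => criterion d e hd he⟩
  obtain ⟨h1, -, h3⟩ := criterion 2 2 le_rfl le_rfl
  obtain ⟨k, -, hk1, hk⟩ := (h3 3 Nat.prime_three (by norm_num) (by norm_num) (by norm_num)).2 0
  have hprim : IsPrimitiveRoot (Complex.exp (2 * Real.pi * Complex.I / (3 : ℕ))) 3 :=
    Complex.isPrimitiveRoot_exp 3 (by norm_num)
  exact hk _ (hprim.ne_one (by norm_num)) hprim.pow_eq_one
    (h _ _ _ (by rw [h1]; norm_num) (by rw [h1]; norm_num) (Or.inl (by rw [h1])))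

end Pool.Agent.Results.MP_2fa0cb_nt.MonomialCriterion
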